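import Pool.Agent.helper81.NU.Spec

/-! Row nu:CA2U (MP_133bfc_co); a copy of CA2 of helper34 with the other faces added. -/

set_option autoImplicit false

namespace Pool.Agent.helper81.NU

open Pool.Agent.helper84.NR

open scoped Classical
open Finset

theorem CA2U_acc {V F : Type} (M : PMap V F) (x y : V) (A : F) (v : V) (m : ℕ) (a : ℕ → V)
    (h : Acc M x y A v m a) : ∀ j, j ≤ m → OnV M.toCyc A (a j) := by
  obtain ⟨h1, -, -, -, h5, -, -⟩ := h
  intro j hj
  rcases Nat.lt_or_ge j m with hlt | hge
  · exact ((h_EDG V F M).1 A _ _ (h5 j hlt)).1
  · have e : j = (m - 1) + 1 := by omega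
    rw [e]
    exact ((h_EDG V F M).1 A _ _ (h5 (m - 1) (by omega))).2.1

theorem CA2U (hN2 : N2_stmt) : CA2U_stmt := by
  intro V F M x y A B v w m m' a b hxy hAx hBy hA hB hxw hvy HA HB
  by_cases hT : (∃ g, Tri M x y A B g) ∧ 2 ≤ m ∧ 2 ≤ m'
  · exact Or.inr hT
  left
  have onA := CA2U_acc M x y A v m a HA
  have onB := CA2U_acc M y x B w m' b HB
  obtain ⟨a1, a2, a3, a4, a5, a6, a7⟩ := HA
  obtain ⟨b1, b2, b3, b4, b5, b6, b7⟩ := HB
  obtain ⟨vA, wA, vw⟩ := (h_EDG V F M).1 A v w hA
  obtain ⟨vB, wB, -⟩ := (h_EDG V F M).1 B v w hB
  have xnb : ¬ ∃ B, OnV M.toCyc B y ∧ OnV M.toCyc B x := by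
    have := a6 0 (by omega)
    rwa [a2] at this
  have ynb : ¬ ∃ B, OnV M.toCyc B x ∧ OnV M.toCyc B y := by
    have := b6 0 (by omega)
    rwa [b2] at this
  have hxw' : x ≠ w := fun h => xnb ⟨B, hBy, by rw [h]; exact wB⟩
  have hyv' : y ≠ v := fun h => ynb ⟨A, hAx, by rw [h]; exact vA⟩
  let q : ℕ → V := fun i => if i ≤ m then a i else b (m + 1 + m' - i)
  have qa : ∀ i, i ≤ m → q i = a i := fun i hi => if_pos hi
  have qb : ∀ i, m < i → q i = b (m + 1 + m' - i) := fun i hi => if_neg (by omega)
  have cross : ∀ i k, i ≤ m → k ≤ m' → a i ≠ b k := by
    intro i k hi hk h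
    rcases Nat.lt_or_ge i m with hlt | hge
    · apply a6 i hlt
      refine ⟨B, hBy, ?_⟩
      rw [h]
      exact onB k hk
    · have ei : i = m := by omega
      rw [ei, a3] at h
      rcases Nat.lt_or_ge k m' with klt | kge
      · apply b6 k klt
        refine ⟨A, hAx, ?_⟩
        rw [← h]
        exact vA
      · have ek : k = m' := by omega
        rw [ek, b3] at h
        exact vw h
  have edge : ∀ i, i < m + 1 + m' →
      (i < m ∧ OnE M.toCyc A s(q i, q (i + 1))) ∨
      (i = m ∧ OnE M.toCyc A s(q i, q (i + 1)) ∧ OnE M.toCyc B s(q i, q (i + 1))) ∨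
      (m < i ∧ OnE M.toCyc B s(q i, q (i + 1))) := by
    intro i hi
    rcases lt_trichotomy i m with h | h | h
    · left
      refine ⟨h, ?_⟩
      rw [qa i h.le, qa (i + 1) (by omega)]
      exact a5 i h
    · right
      left
      refine ⟨h, ?_⟩
      rw [qa i (by omega), qb (i + 1) (by omega), h, a3]
      have e : m + 1 + m' - (m + 1) = m' := by omega
      rw [e, b3]
      exact ⟨hA, hB⟩
    · right
      right
      refine ⟨h, ?_⟩
      rw [qb i h, qb (i + 1) (by omega)]
      have e : m + 1 + m' - i = (m + 1 + m' - (i + 1)) + 1 := by omega
      rw [e, Sym2.eq_swap]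
      exact b5 _ (by omega)
  refine ⟨m + 1 + m', q, ?_, ?_, ?_, ?_, ?_⟩
  · rw [qa 0 (by omega), a2]
  · rw [qb _ (by omega)]
    have e : m + 1 + m' - (m + 1 + m') = 0 := by omega
    rw [e, b2]
  · intro i j hi hj h
    rcases Nat.lt_or_ge m i with h1 | h1
    · rcases Nat.lt_or_ge m j with h2 | h2
      · rw [qb i h1, qb j h2] at h
        have := b4 _ _ (by omega) (by omega) h
        omega
      · rw [qb i h1, qa j h2] at h
        exact absurd h.symm (cross j _ h2 (by omega))
    · rcases Nat.lt_or_ge m j with h2 | h2
      · rw [qa i h1, qb j h2] at h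
        exact absurd h (cross i _ h1 (by omega))
      · rw [qa i h1, qa j h2] at h
        exact a4 _ _ h1 h2 h
  · intro i hi
    rcases edge i hi with h | h | h
    · exact ⟨A, h.2⟩
    · exact ⟨A, h.2.1⟩
    · exact ⟨B, h.2⟩
  · intro f i j hij hj hqi hqj k hik hkj
    have qinj : ∀ i j, i ≤ m + 1 + m' → j ≤ m + 1 + m' → q i = q j → i = j := by
      intro i j hi hj h
      rcases Nat.lt_or_ge m i with h1 | h1
      · rcases Nat.lt_or_ge m j with h2 | h2
        · rw [qb i h1, qb j h2] at h
          have := b4 _ _ (by omega) (by omega) h
          omega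
        · rw [qb i h1, qa j h2] at h
          exact absurd h.symm (cross j _ h2 (by omega))
      · rcases Nat.lt_or_ge m j with h2 | h2
        · rw [qa i h1, qb j h2] at h
          exact absurd h (cross i _ h1 (by omega))
        · rw [qa i h1, qa j h2] at h
          exact a4 _ _ h1 h2 h
    have edgeA : ∀ l, l ≤ m → OnE M.toCyc A s(q l, q (l + 1)) := by
      intro l hl
      rcases edge l (by omega) with h | h | h
      · exact h.2
      · exact h.2.1
      · omega
    have edgeB : ∀ l, m ≤ l → l < m + 1 + m' → OnE M.toCyc B s(q l, q (l + 1)) := by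
      intro l hl hl'
      rcases edge l hl' with h | h | h
      · omega
      · exact h.2.2
      · exact h.2
    by_cases hfxy : ¬ OnV M.toCyc f x ∧ ¬ OnV M.toCyc f y
    · obtain ⟨hfx, hfy⟩ := hfxy
      have hfA : f ≠ A := fun h => hfx (by rw [h]; exact hAx)
      have hfB : f ≠ B := fun h => hfy (by rw [h]; exact hBy)
      have hq0 : q 0 = x := by rw [qa 0 (by omega), a2]
      have hqn : q (m + 1 + m') = y := by
        rw [qb _ (by omega)]
        have e : m + 1 + m' - (m + 1 + m') = 0 := by omega
        rw [e, b2]
      have hi1 : 1 ≤ i := by
        by_contra hcon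
        have e : i = 0 := by omega
        rw [e, hq0] at hqi
        exact hfx hqi
      have hjn : j < m + 1 + m' := by
        by_contra hcon
        have e : j = m + 1 + m' := by omega
        rw [e, hqn] at hqj
        exact hfy hqj
      have hne : q i ≠ q j := fun h => by
        have := qinj i j (by omega) hj h
        omega
      rcases Nat.lt_or_ge (m + 1) j with hjm | hjm
      · rcases Nat.lt_or_ge i m with him | him
        · -- the third face
          exfalso
          apply hT
          refine ⟨⟨f, hfx, hfy, ⟨q i, ?_, hqi⟩, ⟨q j, ?_, hqj⟩, ?_⟩, by omega, by omega⟩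
          · rw [qa i him.le]
            exact onA i him.le
          · rw [qb j (by omega)]
            exact onB _ (by omega)
          · rintro z ⟨zA, zB, zf⟩
            rw [qa i him.le] at hqi
            rw [qb j (by omega)] at hqj
            have hz1 : a i ≠ z := fun h => a6 i him ⟨B, hBy, by rw [h]; exact zB⟩
            have p1 := (M.poly f A hfA (a i) z hz1 hqi zf (onA i him.le) zA).2.1
            have e1 : OnE M.toCyc A s(a i, a (i - 1)) := by
              have := a5 (i - 1) (by omega)
              have e : i - 1 + 1 = i := by omega
              rw [e, Sym2.eq_swap] at this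
              exact this
            have hzv : z = v := by
              rcases hN2 V F M.toCyc A (a i) (a (i - 1)) (a (i + 1)) z e1 (a5 i him) p1 with h | h | h
              · have := a4 (i - 1) (i + 1) (by omega) (by omega) h
                omega
              · exact absurd ⟨B, hBy, by rw [h]; exact zB⟩ (a6 (i - 1) (by omega))
              · rcases Nat.lt_or_ge (i + 1) m with h6 | h6
                · exact absurd ⟨B, hBy, by rw [h]; exact zB⟩ (a6 (i + 1) h6)
                · have e : i + 1 = m := by omega
                  rw [e, a3] at h
                  exact h.symm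
            have hl1 : 1 ≤ m + 1 + m' - j := by omega
            have hl2 : m + 1 + m' - j < m' := by omega
            have hz2 : b (m + 1 + m' - j) ≠ z := fun h => b6 _ hl2 ⟨A, hAx, by rw [h]; exact zA⟩
            have p2 := (M.poly f B hfB (b (m + 1 + m' - j)) z hz2 hqj zf (onB _ hl2.le) zB).2.1
            have e2 : OnE M.toCyc B s(b (m + 1 + m' - j), b (m + 1 + m' - j - 1)) := by
              have := b5 (m + 1 + m' - j - 1) (by omega)
              have e : m + 1 + m' - j - 1 + 1 = m + 1 + m' - j := by omega
              rw [e, Sym2.eq_swap] at this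
              exact this
            have hzw : z = w := by
              rcases hN2 V F M.toCyc B (b (m + 1 + m' - j)) (b (m + 1 + m' - j - 1)) (b (m + 1 + m' - j + 1)) z e2 (b5 _ hl2) p2 with h | h | h
              · have := b4 (m + 1 + m' - j - 1) (m + 1 + m' - j + 1) (by omega) (by omega) h
                omega
              · exact absurd ⟨A, hAx, by rw [h]; exact zA⟩ (b6 (m + 1 + m' - j - 1) (by omega))
              · rcases Nat.lt_or_ge (m + 1 + m' - j + 1) m' with h6 | h6
                · exact absurd ⟨A, hAx, by rw [h]; exact zA⟩ (b6 _ h6)
                · have e : m + 1 + m' - j + 1 = m' := by omega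
                  rw [e, b3] at h
                  exact h.symm
            exact vw (hzv.symm.trans hzw)
        · -- all on `B`
          have oi : OnV M.toCyc B (q i) := ((h_EDG V F M).1 B _ _ (edgeB i him (by omega))).1
          have oj : OnV M.toCyc B (q j) := ((h_EDG V F M).1 B _ _ (edgeB j (by omega) hjn)).1
          have p1 := M.poly f B hfB (q i) (q j) hne hqi hqj oi oj
          have p2 : OnE M.toCyc B s(q j, q i) := by
            rw [Sym2.eq_swap]
            exact p1.2.1
          have e1 : OnE M.toCyc B s(q j, q (j - 1)) := by
            have := edgeB (j - 1) (by omega) (by omega)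
            have e : j - 1 + 1 = j := by omega
            rw [e, Sym2.eq_swap] at this
            exact this
          rcases hN2 V F M.toCyc B (q j) (q (j - 1)) (q (j + 1)) (q i) e1 (edgeB j (by omega) hjn) p2 with h | h | h
          · have := qinj (j - 1) (j + 1) (by omega) (by omega) h
            omega
          · have h7 := qinj (j - 1) i (by omega) (by omega) h
            have e3 : k = i := by omega
            have e4 : i + 1 = j := by omega
            rw [e3, e4]
            exact p1.1
          · have := qinj (j + 1) i (by omega) (by omega) h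
            omega
      · -- all on `A`
        have oi : OnV M.toCyc A (q i) := ((h_EDG V F M).1 A _ _ (edgeA i (by omega))).1
        have oj : OnV M.toCyc A (q j) := by
          have h8 := ((h_EDG V F M).1 A _ _ (edgeA (j - 1) (by omega))).2.1
          have e : j - 1 + 1 = j := by omega
          rw [e] at h8
          exact h8
        have p1 := M.poly f A hfA (q i) (q j) hne hqi hqj oi oj
        have e1 : OnE M.toCyc A s(q i, q (i - 1)) := by
          have := edgeA (i - 1) (by omega)
          have e : i - 1 + 1 = i := by omega
          rw [e, Sym2.eq_swap] at this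
          exact this
        rcases hN2 V F M.toCyc A (q i) (q (i - 1)) (q (i + 1)) (q j) e1 (edgeA i (by omega)) p1.2.1 with h | h | h
        · have := qinj (i - 1) (i + 1) (by omega) (by omega) h
          omega
        · have := qinj (i - 1) j (by omega) (by omega) h
          omega
        · have h7 := qinj (i + 1) j (by omega) (by omega) h
          have e3 : k = i := by omega
          rw [e3, h7]
          exact p1.1
    have hf : OnV M.toCyc f x ∨ OnV M.toCyc f y := by
      by_contra hcon
      push Not at hcon
      exact hfxy hcon
    rcases hf with hf | hf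
    · -- a face at `x`
      have far : ∀ l, m + 1 < l → l ≤ m + 1 + m' → ¬ OnV M.toCyc f (q l) := by
        intro l h1 h2 h3
        rw [qb l (by omega)] at h3
        exact b6 _ (by omega) ⟨f, hf, h3⟩
      by_cases hfA : f = A
      · have hj1 : j ≤ m + 1 := by
          by_contra hcon
          exact far j (by omega) hj hqj
        rw [hfA]
        rcases edge k (by omega) with h | h | h
        · exact h.2
        · exact h.2.1
        · omega
      · have hle : ∀ l, l ≤ m + 1 + m' → OnV M.toCyc f (q l) → l ≤ 1 := by
          intro l h1 h2
          rcases Nat.lt_or_ge (m + 1) l with h3 | h3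
          · exact absurd h2 (far l h3 h1)
          · rcases Nat.lt_or_ge m l with h4 | h4
            · have el : l = m + 1 := by omega
              exfalso
              rw [qb l h4, el] at h2
              have e : m + 1 + m' - (m + 1) = m' := by omega
              rw [e, b3] at h2
              have := M.poly f A hfA x w hxw' hf h2 hAx wA
              exact hxw ⟨A, this.2.1⟩
            · rw [qa l h4] at h2
              rcases Nat.eq_zero_or_pos l with h5 | h5
              · omega
              · exact (a7 f hf hfA l h5 h4 h2).le
        have hj1 := hle j hj hqj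
        have ei : i = 0 := by omega
        have ej : j = 1 := by omega
        have ek : k = 0 := by omega
        rw [ei] at hqi
        rw [ej] at hqj
        rw [ek]
        refine (h_EDG V F M).2 f _ _ ?_ hqi hqj
        rcases edge 0 (by omega) with h | h | h
        · exact ⟨A, h.2⟩
        · exact ⟨A, h.2.1⟩
        · exact ⟨B, h.2⟩
    · -- a face at `y`
      have far : ∀ l, l < m → ¬ OnV M.toCyc f (q l) := by
        intro l h1 h3
        rw [qa l (by omega)] at h3
        exact a6 _ (by omega) ⟨f, hf, h3⟩
      by_cases hfB : f = B
      · have hi1 : m ≤ i := by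
          by_contra hcon
          exact far i (by omega) hqi
        rw [hfB]
        rcases edge k (by omega) with h | h | h
        · omega
        · exact h.2.2
        · exact h.2
      · have hle : ∀ l, l ≤ m + 1 + m' → OnV M.toCyc f (q l) → m + m' ≤ l := by
          intro l h1 h2
          rcases Nat.lt_or_ge l m with h3 | h3
          · exact absurd h2 (far l h3)
          · rcases Nat.lt_or_ge m l with h4 | h4
            · rw [qb l h4] at h2
              rcases Nat.eq_zero_or_pos (m + 1 + m' - l) with h5 | h5
              · omega
              · have := b7 f hf hfB _ h5 (by omega) h2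
                omega
            · have el : l = m := by omega
              exfalso
              rw [qa l h4, el, a3] at h2
              have := M.poly f B hfB y v hyv' hf h2 hBy vB
              apply hvy
              have h6 := this.2.1
              rw [Sym2.eq_swap] at h6
              exact ⟨B, h6⟩
        have hi1 := hle i (by omega) hqi
        have ei : i = m + m' := by omega
        have ej : j = m + m' + 1 := by omega
        have ek : k = m + m' := by omega
        rw [ei] at hqi
        rw [ej] at hqj
        rw [ek]
        refine (h_EDG V F M).2 f _ _ ?_ hqi hqj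
        rcases edge (m + m') (by omega) with h | h | h
        · exact ⟨A, h.2⟩
        · exact ⟨A, h.2.1⟩
        · exact ⟨B, h.2⟩

end Pool.Agent.helper81.NU
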